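import Pool.Agent.Lib.MP_2da099_lc.NQ.F

/-!
# MP_2da099_lc: the word problem of every finitely generated metabelian group

`G` is generated by `g 0, ..., g (r-1)`, `A` is an abelian normal subgroup with abelian quotient `G ⧸ A`, of
torsion-free rank at most `m`.  If `A` is torsion-free or `m ≤ 3`, the word problem of `G` is decided by a
multi-stack Turing machine in time `O(n ^ 2 (log n) ^ C)`; in all other cases in time
`O(n ^ (3 (m - 1) / m) (log n) ^ C)`.
-/

set_option autoImplicit false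

namespace Pool.Agent.Results.MP_2da099_lc.NearQuadratic

/-- The value of a word in the letters `(i, true)` (the generator `g i`) and `(i, false)` (its
inverse). -/
def value {G : Type*} [Group G] {r : ℕ} (g : Fin r → G) (w : List (Fin r × Bool)) : G :=
  (w.map (fun l => if l.2 then g l.1 else (g l.1)⁻¹)).prod

universe u

open Classical in
theorem result {G : Type u} [Group G] (A : Subgroup G) [A.Normal]
    (hcomm : ∀ a ∈ A, ∀ b ∈ A, a * b = b * a)
    (hquot : ∀ x y : G, x * y * x⁻¹ * y⁻¹ ∈ A) (r m : ℕ) (g : Fin r → G)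
    (hg : Subgroup.closure (Set.range g) = ⊤) (x : Fin m → G)
    (hx : ∀ h : G, ∃ k, 0 < k ∧ h ^ k ∈ Subgroup.closure (Set.range x) ⊔ A)
    (e : ℝ) (he : 2 ≤ e)
    (h : (∀ a ∈ A, ∀ n : ℕ, 0 < n → a ^ n = 1 → a = 1) ∨ 3 * ((m : ℝ) - 1) ≤ e * m) :
    ∃ (M : Turing.TM2ComputableInTime (fun w : List (Fin r × Bool) => w) (fun b : Bool => [b])
      (fun w => decide (value g w = 1))) (C : ℕ), (∀ k, Finite (M.tm.Γ k)) ∧
      ∀ n : ℕ, (M.time n : ℝ) ≤ C * ((n : ℝ) + 1) ^ e * (Nat.log 2 (n + 2) : ℝ) ^ C :=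
  (Pool.Agent.WNQ.el_group A hcomm hquot g hg x hx he h).machine (le_trans one_le_two he)

end Pool.Agent.Results.MP_2da099_lc.NearQuadratic
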