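import Pool.Agent.Lib.MP_2da099_lc.QL.O4
import Pool.Agent.Lib.MP_2da099_lc.QL.Q13

/-!
# MP_2da099_lc: one-relator metabelian groups

For every word `ρ` in `r` letters the word problem of the one-relator metabelian group `F / ⟨⟨ρ⟩⟩ F''`, `F` free of
rank `r`, `F''` its second derived subgroup, is decided by a multi-stack Turing machine in time
`O(n (log n) ^ C)`.
-/

set_option autoImplicit false

namespace Pool.Agent.Results.MP_2da099_lc.OneRelatorMetabelian

open Classical in
theorem result (r : ℕ) (ρ : FreeGroup (Fin r)) :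
    ∃ (M : Turing.TM2ComputableInTime (fun w : List (Fin r × Bool) => w) (fun b : Bool => [b])
      (fun w => decide ((FreeGroup.mk w : FreeGroup (Fin r)) ∈
        Subgroup.normalClosure {ρ} ⊔ derivedSeries (FreeGroup (Fin r)) 2))) (C : ℕ),
      (∀ k, Finite (M.tm.Γ k)) ∧
      ∀ n : ℕ, M.time n ≤ C * (n + 1) * Nat.log 2 (n + 2) ^ C :=
  (Pool.Agent.WQL.QL_oneRelator r ρ).machine

end Pool.Agent.Results.MP_2da099_lc.OneRelatorMetabelian
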