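import Pool.Agent.Lib.MP_2da099_lc.QL.G2
import Pool.Agent.Lib.MP_2da099_lc.QL.P2
import Pool.Agent.Lib.MP_2da099_lc.QL.Q13

/-!
# MP_2da099_lc: metabelian groups with word problem in quasi-linear time

`G` is generated by `g 0, ..., g (r-1)`, `A` is an abelian normal subgroup with abelian quotient, the images of
`x 0, ..., x (m-1)` are a basis of a free abelian subgroup of finite index of `G ⧸ A` modulo torsion.  If `m ≤ 1`,
or if every element of `A` which is killed by two coprime elements of the group ring of `ℤ ^ m` is killed by a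
power of `x i ^ d - 1` for every `i`, then the word problem of `G` is decided by a multi-stack Turing machine in
time `O(n (log n) ^ C)`.
-/

set_option autoImplicit false

namespace Pool.Agent.Results.MP_2da099_lc.QuasiLinear

/-- The value of a word in the letters `(i, true)` (the generator `g i`) and `(i, false)` (its
inverse). -/
def value {G : Type*} [Group G] {r : ℕ} (g : Fin r → G) (w : List (Fin r × Bool)) : G :=
  (w.map (fun l => if l.2 then g l.1 else (g l.1)⁻¹)).prod

/-- Laurent polynomials with integer coefficients in `m` variables: the group ring of `ℤ ^ m`. -/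
abbrev Laurent (m : ℕ) : Type := AddMonoidAlgebra ℤ (Fin m → ℤ)

/-- The product `x 0 ^ v 0 * ... * x (m-1) ^ v (m-1)`. -/
def power {G : Type*} [Group G] {m : ℕ} (x : Fin m → G) (v : Fin m → ℤ) : G :=
  ((List.finRange m).map (fun i => x i ^ v i)).prod

/-- The action of the Laurent polynomial `f = Σ c_v Y ^ v` on an element `a` of an abelian normal subgroup: the
product of the elements `x ^ v * a ^ c_v * (x ^ v)⁻¹`. -/
noncomputable def act {G : Type*} [Group G] {m : ℕ} (x : Fin m → G) (f : Laurent m) (a : G) : G :=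
  (f.coeff.support.toList.map (fun v => power x v * a ^ f.coeff v * (power x v)⁻¹)).prod

universe u

open Classical in
theorem result {G : Type u} [Group G] (A : Subgroup G) [A.Normal]
    (hcomm : ∀ a ∈ A, ∀ b ∈ A, a * b = b * a)
    (hquot : ∀ x y : G, x * y * x⁻¹ * y⁻¹ ∈ A) (r m : ℕ) (g : Fin r → G)
    (hg : Subgroup.closure (Set.range g) = ⊤) (x : Fin m → G)
    (hx : ∀ h : G, ∃ k, 0 < k ∧ h ^ k ∈ Subgroup.closure (Set.range x) ⊔ A)
    (hind : ∀ v : Fin m → ℤ, power x v ∈ A → v = 0)
    (hA : 2 ≤ m → ∀ a ∈ A, ∀ f₁ f₂ : Laurent m, IsRelPrime f₁ f₂ →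
      act x f₁ a = 1 → act x f₂ a = 1 → ∃ d K : ℕ, 0 < d ∧ ∀ i : Fin m,
        act x ((AddMonoidAlgebra.single (Pi.single i (d : ℤ)) 1 - 1) ^ K) a = 1) :
    ∃ (M : Turing.TM2ComputableInTime (fun w : List (Fin r × Bool) => w) (fun b : Bool => [b])
      (fun w => decide (value g w = 1))) (C : ℕ), (∀ k, Finite (M.tm.Γ k)) ∧
      ∀ n : ℕ, M.time n ≤ C * (n + 1) * Nat.log 2 (n + 2) ^ C := by
  by_cases hm : 2 ≤ m
  · exact (Pool.Agent.WQL.QL_group A hcomm hquot g hg x hx hind (hA hm)).machine
  · have key : ∃ x' : G, ∀ h : G, ∃ k, 0 < k ∧ h ^ k ∈ Subgroup.zpowers x' ⊔ A := by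
      rcases Nat.lt_or_ge 0 m with h0 | h0
      · refine ⟨x ⟨0, h0⟩, fun h => ?_⟩
        obtain ⟨k, hk, h1⟩ := hx h
        refine ⟨k, hk, ?_⟩
        have h2 : Subgroup.closure (Set.range x) ≤ Subgroup.zpowers (x ⟨0, h0⟩) := by
          rw [Subgroup.closure_le]
          rintro _ ⟨i, rfl⟩
          have h3 : i = ⟨0, h0⟩ := Fin.ext (by omega)
          rw [h3]
          exact Subgroup.mem_zpowers _
        exact sup_le_sup_right h2 A h1
      · refine ⟨1, fun h => ?_⟩
        obtain ⟨k, hk, h1⟩ := hx h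
        refine ⟨k, hk, ?_⟩
        have h2 : Subgroup.closure (Set.range x) ≤ Subgroup.zpowers (1 : G) := by
          rw [Subgroup.closure_le]
          rintro _ ⟨i, rfl⟩
          exact absurd i.2 (by omega)
        exact sup_le_sup_right h2 A h1
    obtain ⟨x', hx'⟩ := key
    exact (Pool.Agent.WQL.QL_rankOne A hcomm hquot g hg x' hx').machine

end Pool.Agent.Results.MP_2da099_lc.QuasiLinear
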